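import Pool.Agent.PQP.StmtsC

/-!
# Row BDD of PQP (helper64): upper and lower bounds
-/

set_option autoImplicit false

open scoped InnerProductSpace Topology ContDiff Manifold
open MeasureTheory Filter Set

noncomputable section

namespace Pool.Agent.PQP.H64

open Pool.Agent.PQP Pool.Agent.Helper42_Paneitz Pool.Agent.Helper82_Vir Pool.Agent.FLX

theorem ell_ge (x y : S4) : - Real.log 2 ≤ ell x y := by
  unfold ell
  have h1 : ‖(x : E5)‖ = 1 := mem_sphere_zero_iff_norm.1 x.2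
  have h2 : ‖(y : E5)‖ = 1 := mem_sphere_zero_iff_norm.1 y.2
  have h3 : |⟪(x : E5), (y : E5)⟫_ℝ| ≤ 1 := by
    have h4 := abs_real_inner_le_norm (x : E5) (y : E5)
    rw [h1, h2, one_mul] at h4
    exact h4
  have h4 := abs_le.1 h3
  apply neg_le_neg
  rcases eq_or_lt_of_le (show 0 ≤ 1 - ⟪(x : E5), (y : E5)⟫_ℝ by linarith) with h5 | h5
  · rw [← h5, Real.log_zero]
    exact Real.log_nonneg (by norm_num)
  · exact Real.log_le_log h5 (by linarith)

theorem pot_ge {f : S4 → ℝ} (hf : Dens f) (x : S4) : - Real.log 2 ≤ pot f x := by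
  obtain ⟨h1, h2, h3⟩ := hf
  unfold pot
  by_cases hi : Integrable (fun y => ell x y * f y) sig
  · calc - Real.log 2 = ∫ y, (- Real.log 2) * f y ∂sig := by
          rw [integral_const_mul, h3, mul_one]
      _ ≤ ∫ y, ell x y * f y ∂sig :=
          integral_mono ((integrable_cont h1).const_mul _) hi
            (fun y => mul_le_mul_of_nonneg_right (ell_ge x y) (h2 y).le)
  · rw [integral_undef hi]
    exact neg_nonpos.2 (Real.log_nonneg (by norm_num))

/-- row BDD -/
theorem bdd (hB : BdjStmt) (hE : EqcStmt) : BddStmt := by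
  intro u Λ hu hΛ
  obtain ⟨C1, hC1, hB1⟩ := hB u hu
  have hm := msig_pos
  obtain ⟨K, hK⟩ : ∃ K : ℝ, K = 16 * Λ ^ 2 / msig := ⟨_, rfl⟩
  have hK0 : 0 < K := by rw [hK]; positivity
  obtain ⟨⟨C', hC', hE1⟩, -⟩ := hE (K ^ 2 * C1) (by positivity)
  obtain ⟨E, hEd⟩ : ∃ E : ℝ, E = Real.exp (4 * C') := ⟨_, rfl⟩
  have hE0 : 0 < E := by rw [hEd]; exact Real.exp_pos _
  obtain ⟨L, hL⟩ : ∃ L : ℝ, L = 16 * Λ ^ 2 * msig * E := ⟨_, rfl⟩
  have hL0 : 0 < L := by rw [hL]; positivity
  refine ⟨K * E + L, by positivity, fun W f hS hmas hW hWL => ?_⟩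
  obtain ⟨hD, A, hA, hf⟩ := hS
  obtain ⟨hc, hpos, hint⟩ := hD
  have hD : Dens f := ⟨hc, hpos, hint⟩
  obtain ⟨hpc, hpe⟩ := hB1 f hD hmas
  have hne : Nonempty S4 := ⟨⟨EuclideanSpace.basisFun (Fin 5) ℝ 0, by
    rw [mem_sphere_zero_iff_norm]
    exact (EuclideanSpace.basisFun (Fin 5) ℝ).orthonormal.1 0⟩⟩
  obtain ⟨x₀⟩ := hne
  obtain ⟨c, hcd⟩ : ∃ c : ℝ, c = W x₀ := ⟨_, rfl⟩
  have hc0 : 0 < c := by rw [hcd]; exact hW x₀
  have hW1 : ∀ x, W x ≤ Λ * c := fun x => by rw [hcd]; exact hWL x x₀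
  have hW2 : ∀ x, c / Λ ≤ W x := fun x => by
    rw [div_le_iff₀ hΛ, hcd, mul_comm]; exact hWL x₀ x
  have hp : ∀ x, 1 / 16 ≤ Real.exp (4 * pot f x) := by
    intro x
    have h1 := pot_ge hD x
    have h2 : Real.exp (4 * (- Real.log 2)) = 1 / 16 := by
      have h3 : (4 : ℝ) * (- Real.log 2) = - Real.log 16 := by
        have h4 : (16 : ℝ) = 2 ^ (4 : ℕ) := by norm_num
        rw [h4, Real.log_pow]
        push_cast
        ring
      rw [h3, Real.exp_neg, Real.exp_log (by norm_num)]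
      norm_num
    rw [← h2]
    exact Real.exp_le_exp.2 (by linarith)
  -- lower bound for `f`
  have hlow : ∀ x, A * (c / Λ) / 16 ≤ f x := by
    intro x
    rw [hf x]
    have h1 : 0 < A * (c / Λ) := by positivity
    calc A * (c / Λ) / 16 = A * (c / Λ) * (1 / 16) := by ring
      _ ≤ A * W x * Real.exp (4 * pot f x) :=
        mul_le_mul (mul_le_mul_of_nonneg_left (hW2 x) hA.le) (hp x) (by norm_num)
          (mul_pos hA (hW x)).le
  have hfi := integrable_cont hc
  have h1 : A * (c / Λ) / 16 * msig ≤ 1 := by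
    calc A * (c / Λ) / 16 * msig = ∫ _x : S4, A * (c / Λ) / 16 ∂sig := by
          rw [integral_const_sig]; ring
      _ ≤ ∫ x, f x ∂sig := integral_mono (integrable_const _) hfi hlow
      _ = 1 := hint
  have hAc : A * Λ * c ≤ K := by
    rw [hK, le_div_iff₀ hm]
    have h2 : A * Λ * c * msig = 16 * Λ ^ 2 * (A * (c / Λ) / 16 * msig) := by
      field_simp
    rw [h2]
    calc 16 * Λ ^ 2 * (A * (c / Λ) / 16 * msig) ≤ 16 * Λ ^ 2 * 1 :=
          mul_le_mul_of_nonneg_left h1 (by positivity)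
      _ = 16 * Λ ^ 2 := mul_one _
  have hup : ∀ x, f x ≤ K * Real.exp (4 * pot f x) := by
    intro x
    rw [hf x]
    refine mul_le_mul_of_nonneg_right ?_ (Real.exp_pos _).le
    calc A * W x ≤ A * (Λ * c) := mul_le_mul_of_nonneg_left (hW1 x) hA.le
      _ = A * Λ * c := by ring
      _ ≤ K := hAc
  have hsq : ∀ x, f x ^ 2 ≤ K ^ 2 * Real.exp (8 * pot f x) := by
    intro x
    calc f x ^ 2 ≤ (K * Real.exp (4 * pot f x)) ^ 2 := pow_le_pow_left₀ (hpos x).le (hup x) 2
      _ = K ^ 2 * Real.exp (8 * pot f x) := by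
        rw [mul_pow, ← Real.exp_nat_mul]
        congr 2
        push_cast
        ring
  have hec : Continuous (fun x => Real.exp (8 * pot f x)) :=
    Real.continuous_exp.comp (continuous_const.mul hpc)
  have hint2 : ∫ x, f x ^ 2 ∂sig ≤ K ^ 2 * C1 := by
    calc ∫ x, f x ^ 2 ∂sig ≤ ∫ x, K ^ 2 * Real.exp (8 * pot f x) ∂sig :=
          integral_mono (integrable_cont (hc.pow 2)) ((integrable_cont hec).const_mul _) hsq
      _ = K ^ 2 * ∫ x, Real.exp (8 * pot f x) ∂sig := integral_const_mul _ _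
      _ ≤ K ^ 2 * C1 := mul_le_mul_of_nonneg_left hpe (by positivity)
  have hpb : ∀ x, |pot f x| ≤ C' := fun x =>
    (hE1 f hc.measurable (integrable_cont (hc.pow 2)) hint2 x).2
  have hpe4 : ∀ x, Real.exp (4 * pot f x) ≤ E := by
    intro x
    rw [hEd]
    exact Real.exp_le_exp.2 (by linarith [(abs_le.1 (hpb x)).2])
  have hup2 : ∀ x, f x ≤ A * Λ * c * E := by
    intro x
    rw [hf x]
    refine mul_le_mul ?_ (hpe4 x) (Real.exp_pos _).le (by positivity)
    calc A * W x ≤ A * (Λ * c) := mul_le_mul_of_nonneg_left (hW1 x) hA.le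
      _ = A * Λ * c := by ring
  have h3 : 1 ≤ A * Λ * c * E * msig := by
    calc (1 : ℝ) = ∫ x, f x ∂sig := hint.symm
      _ ≤ ∫ _x : S4, A * Λ * c * E ∂sig := integral_mono hfi (integrable_const _) hup2
      _ = A * Λ * c * E * msig := by rw [integral_const_sig]; ring
  intro x
  constructor
  · have h4 : 1 / L ≤ f x := by
      refine le_trans ?_ (hlow x)
      rw [div_le_iff₀ hL0]
      have h5 : A * (c / Λ) / 16 * L = A * Λ * c * E * msig := by
        rw [hL]
        field_simp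
      rw [h5]
      exact h3
    refine le_trans ?_ h4
    exact one_div_le_one_div_of_le hL0 (by nlinarith [mul_pos hK0 hE0])
  · calc f x ≤ A * Λ * c * E := hup2 x
      _ ≤ K * E := mul_le_mul_of_nonneg_right hAc hE0.le
      _ ≤ K * E + L := by linarith

end Pool.Agent.PQP.H64
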