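import Pool.Agent.PQP.StmtsN

/-!
# Row PSF of PQP (helper64): away from the minimum
-/

set_option autoImplicit false

open scoped InnerProductSpace Topology ContDiff Manifold
open MeasureTheory Filter Set

noncomputable section

namespace Pool.Agent.PQP.H64

open Pool.Agent.PQP Pool.Agent.Helper42_Paneitz Pool.Agent.Helper82_Vir Pool.Agent.FLX

/-- row PSF -/
theorem psf : PsfStmt := by
  intro ψ N hψ ρ hρ
  obtain ⟨hs, h0, hpos, -, hcr⟩ := hψ
  have hcl : IsClosed {x : S4 | ρ ≤ 1 - ⟪(N : E5), (x : E5)⟫_ℝ} :=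
    isClosed_le continuous_const
      (continuous_const.sub (continuous_const.inner continuous_subtype_val))
  have hne : ∀ x ∈ {x : S4 | ρ ≤ 1 - ⟪(N : E5), (x : E5)⟫_ℝ}, x ≠ N := by
    intro x hx hxN
    have h1 : ρ ≤ 1 - ⟪(N : E5), (x : E5)⟫_ℝ := hx
    have h2 : ‖(N : E5)‖ = 1 := mem_sphere_zero_iff_norm.1 N.2
    rw [hxN, real_inner_self_eq_norm_sq, h2] at h1
    linarith
  obtain ⟨c₁, hc₁, hc₁'⟩ := pos_lower hcl (continuous_of_sm hs) (fun x hx => hpos x (hne x hx))
  have hF : Continuous fun x => ‖gd ψ x‖ + max 0 (-sphLaplacian ψ x) :=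
    (smV_gd hs).continuous.norm.add
      (continuous_const.max (continuous_of_sm hs.sphLaplacian).neg)
  obtain ⟨m, hm, hm'⟩ := pos_lower hcl hF (by
    intro x hx
    by_cases hg : gd ψ x = 0
    · have hc : Crit ψ x := by
        intro v
        rw [← inner_gd, hg, inner_zero_right]
      have h1 := hcr x (hne x hx) hc
      have h2 : 0 < max 0 (-sphLaplacian ψ x) := lt_max_of_lt_right (by linarith)
      have h3 := norm_nonneg (gd ψ x)
      linarith
    · have h1 := norm_pos_iff.2 hg
      have h2 : 0 ≤ max 0 (-sphLaplacian ψ x) := le_max_left _ _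
      linarith)
  refine ⟨min c₁ (m / 2), m / 2, lt_min hc₁ (by linarith), by linarith, fun x hx => ?_⟩
  refine ⟨(min_le_left _ _).trans (hc₁' x hx), fun hg => ?_⟩
  have h1 := hm' x hx
  have h2 : m / 2 ≤ max 0 (-sphLaplacian ψ x) := by linarith
  have h3 : m / 2 ≤ -sphLaplacian ψ x := by
    rcases le_max_iff.1 h2 with h4 | h4
    · linarith
    · exact h4
  have h4 := min_le_right c₁ (m / 2)
  linarith

end Pool.Agent.PQP.H64
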