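import Pool.Agent.PQP.StmtsN

/-!
# Row SCA of PQP (helper64): scale and centre of the balanced position
-/

set_option autoImplicit false

open scoped InnerProductSpace Topology ContDiff Manifold
open MeasureTheory Filter Set

noncomputable section

namespace Pool.Agent.PQP.H64

open Pool.Agent.PQP Pool.Agent.Helper42_Paneitz Pool.Agent.Helper82_Vir Pool.Agent.FLX

theorem nsq (x y : S4) : ‖(x : E5) - (y : E5)‖ ^ 2 = 2 * (1 - ⟪(x : E5), (y : E5)⟫_ℝ) := by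
  have h1 : ‖(x : E5)‖ = 1 := mem_sphere_zero_iff_norm.1 x.2
  have h2 : ‖(y : E5)‖ = 1 := mem_sphere_zero_iff_norm.1 y.2
  rw [norm_sub_sq_real, h1, h2]
  ring

theorem inner_bd (x y : S4) : -1 ≤ ⟪(x : E5), (y : E5)⟫_ℝ ∧ ⟪(x : E5), (y : E5)⟫_ℝ ≤ 1 := by
  have h1 : ‖(x : E5)‖ = 1 := mem_sphere_zero_iff_norm.1 x.2
  have h2 : ‖(y : E5)‖ = 1 := mem_sphere_zero_iff_norm.1 y.2
  have h3 : |⟪(x : E5), (y : E5)⟫_ℝ| ≤ 1 := by
    have h4 := abs_real_inner_le_norm (x : E5) (y : E5)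
    rw [h1, h2, one_mul] at h4
    exact h4
  exact abs_le.1 h3

theorem tri2 (x y z : S4) {a b : ℝ} (ha : 1 - ⟪(x : E5), (y : E5)⟫_ℝ ≤ a)
    (hb : 1 - ⟪(y : E5), (z : E5)⟫_ℝ ≤ b) : 1 - ⟪(x : E5), (z : E5)⟫_ℝ ≤ 2 * a + 2 * b := by
  have h1 := nsq x y
  have h2 := nsq y z
  have h3 := nsq x z
  have h4 := norm_sub_le_norm_sub_add_norm_sub (x : E5) (y : E5) (z : E5)
  have h5 := norm_nonneg ((x : E5) - (z : E5))
  have h6 : ‖(x : E5) - (z : E5)‖ ^ 2 ≤ (‖(x : E5) - (y : E5)‖ + ‖(y : E5) - (z : E5)‖) ^ 2 :=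
    pow_le_pow_left₀ h5 h4 2
  nlinarith [sq_nonneg (‖(x : E5) - (y : E5)‖ - ‖(y : E5) - (z : E5)‖)]

theorem tri23 (x y z : S4) {a b : ℝ} (ha : 1 - ⟪(x : E5), (y : E5)⟫_ℝ ≤ a)
    (hb : 1 - ⟪(y : E5), (z : E5)⟫_ℝ ≤ b) :
    1 - ⟪(x : E5), (z : E5)⟫_ℝ ≤ 23 / 22 * a + 23 * b := by
  have h1 := nsq x y
  have h2 := nsq y z
  have h3 := nsq x z
  have h4 := norm_sub_le_norm_sub_add_norm_sub (x : E5) (y : E5) (z : E5)
  have h5 := norm_nonneg ((x : E5) - (z : E5))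
  have h6 : ‖(x : E5) - (z : E5)‖ ^ 2 ≤ (‖(x : E5) - (y : E5)‖ + ‖(y : E5) - (z : E5)‖) ^ 2 :=
    pow_le_pow_left₀ h5 h4 2
  nlinarith [sq_nonneg (‖(x : E5) - (y : E5)‖ - 22 * ‖(y : E5) - (z : E5)‖)]

/-- row SCA -/
theorem sca (hcov : CovStmt) (hblm : BlmStmt) (hmoa : MoaStmt) : ScaStmt := by
  intro f w z lam v hD hl0 hl1 hbal hv hmas
  have hw1 : ‖(w : E5)‖ = 1 := mem_sphere_zero_iff_norm.1 w.2
  obtain ⟨b, hb⟩ : ∃ b : E5, b = lam • (w : E5) := ⟨_, rfl⟩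
  rw [← hb] at hbal ⊢
  have hbn : ‖b‖ = lam := by rw [hb, norm_smul, hw1, mul_one, Real.norm_of_nonneg hl0]
  have hb1 : ‖b‖ < 1 := by rw [hbn]; exact hl1
  obtain ⟨c1, -, -, c4⟩ := hcov b hb1
  obtain ⟨m1, -, m3, -, m5, -⟩ := hmoa b hb1
  have hbin : ∀ x : S4, ⟪b, (x : E5)⟫_ℝ = lam * ⟪(w : E5), (x : E5)⟫_ℝ := by
    intro x
    rw [hb, real_inner_smul_left]
  have hk : 0 < 1 - lam ^ 2 := by nlinarith
  have hsq : Pool.Agent.FLX.sq b ^ 2 = 1 - lam ^ 2 := by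
    unfold Pool.Agent.FLX.sq
    rw [Real.sq_sqrt (by rw [hbn]; exact hk.le), hbn]
  have hDh : Dens (pull b f) := c1 f hD
  obtain ⟨P, hP⟩ : ∃ P : Set S4, P = {x : S4 | mob b x ∈ cap z v} := ⟨_, rfl⟩
  have hcapm : MeasurableSet (cap z v) :=
    (isClosed_le (continuous_const.sub (continuous_const.inner continuous_subtype_val))
      continuous_const).measurableSet
  have hPm : 3 / 4 ≤ ∫ x in P, pull b f x ∂sig := by
    rw [hP, c4 f (cap z v) hcapm hD.1]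
    exact hmas
  have hmem : ∀ x ∈ P, 1 - ⟪(z : E5), (mob b x : E5)⟫_ℝ ≤ v := by
    intro x hx
    rw [hP] at hx
    exact hx
  have hsub : ∀ (y : S4), P ⊆ cap y (1 / 4) → False := by
    intro y hy
    have h1 : ∫ x in P, pull b f x ∂sig ≤ mas (pull b f) y (1 / 4) := by
      unfold mas
      refine setIntegral_mono_set (integrable_cont hDh.1).integrableOn ?_ ?_
      · exact Eventually.of_forall fun x => (hDh.2.1 x).le
      · exact Eventually.of_forall hy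
    have h2 := hblm (pull b f) y (1 / 4) hDh hbal (by norm_num) (by norm_num)
    norm_num at h2
    linarith
  have hPne : P.Nonempty := by
    rcases P.eq_empty_or_nonempty with h | h
    · exfalso
      exact hsub z (by rw [h]; exact empty_subset _)
    · exact h
  obtain ⟨x₀, hx₀⟩ := hPne
  have hk64 : 1 - lam ^ 2 < 64 * v := by
    by_contra hcon
    push Not at hcon
    apply hsub x₀
    intro x hx
    show 1 - ⟪(x₀ : E5), (x : E5)⟫_ℝ ≤ 1 / 4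
    have h1 := hmem x hx
    have h2 := hmem x₀ hx₀
    have h3 : 1 - ⟪(mob b x₀ : E5), (mob b x : E5)⟫_ℝ ≤ 2 * v + 2 * v := by
      refine tri2 (mob b x₀) z (mob b x) ?_ h1
      rw [real_inner_comm]
      exact h2
    rw [m3, hbn] at h3
    have p1 := m1 x
    have p0 := m1 x₀
    rw [div_le_iff₀ (mul_pos p0 p1)] at h3
    have q1 : 1 + ⟪b, (x : E5)⟫_ℝ ≤ 2 := by
      rw [hbin]
      nlinarith [(inner_bd w x).2, (inner_bd w x).1]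
    have q0 : 1 + ⟪b, (x₀ : E5)⟫_ℝ ≤ 2 := by
      rw [hbin]
      nlinarith [(inner_bd w x₀).2, (inner_bd w x₀).1]
    have h4 : (1 + ⟪b, (x₀ : E5)⟫_ℝ) * (1 + ⟪b, (x : E5)⟫_ℝ) ≤ 2 * 2 :=
      mul_le_mul q0 q1 p1.le (by norm_num)
    have h5 : (2 * v + 2 * v) * ((1 + ⟪b, (x₀ : E5)⟫_ℝ) * (1 + ⟪b, (x : E5)⟫_ℝ)) ≤
        (2 * v + 2 * v) * (2 * 2) := mul_le_mul_of_nonneg_left h4 (by linarith)
    have h6 : (1 - lam ^ 2) * (1 - ⟪(x₀ : E5), (x : E5)⟫_ℝ) ≤ (1 - lam ^ 2) * (1 / 4) := by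
      linarith
    exact le_of_mul_le_mul_left h6 hk
  refine ⟨by rw [hsq]; linarith, ?_⟩
  by_cases hlam : lam = 0
  · rw [hlam] at hk64
    have h1 := (inner_bd w z).1
    linarith
  have hlpos : 0 < lam := lt_of_le_of_ne hl0 (Ne.symm hlam)
  obtain ⟨x, hx, hxw⟩ : ∃ x ∈ P, x ∉ cap (-w) (1 / 4) := by
    by_contra hcon
    push Not at hcon
    exact hsub (-w) hcon
  have hxw' : 1 / 4 < 1 + ⟪(w : E5), (x : E5)⟫_ℝ := by
    have h1 : ¬ (1 - ⟪((-w : S4) : E5), (x : E5)⟫_ℝ ≤ 1 / 4) := hxw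
    have h2 : ((-w : S4) : E5) = -(w : E5) := rfl
    rw [h2, inner_neg_left] at h1
    push Not at h1
    linarith
  have h5 := m5 x
  rw [hbn, hbin, hbin] at h5
  have hN : 1 / 4 ≤ 1 + lam * ⟪(w : E5), (x : E5)⟫_ℝ := by
    nlinarith [(inner_bd w x).2]
  have h6 : (1 - ⟪(w : E5), (mob b x : E5)⟫_ℝ) * (1 + lam * ⟪(w : E5), (x : E5)⟫_ℝ) =
      (1 - lam) * (1 - ⟪(w : E5), (x : E5)⟫_ℝ) := by
    have h7 : lam * ((1 - ⟪(w : E5), (mob b x : E5)⟫_ℝ) * (1 + lam * ⟪(w : E5), (x : E5)⟫_ℝ)) =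
        lam * ((1 - lam) * (1 - ⟪(w : E5), (x : E5)⟫_ℝ)) := by
      linear_combination h5
    exact mul_left_cancel₀ hlam h7
  have h8 : 1 - ⟪(w : E5), (mob b x : E5)⟫_ℝ ≤ 512 * v := by
    have h9 : 0 ≤ 1 - ⟪(w : E5), (mob b x : E5)⟫_ℝ := by linarith [(inner_bd w (mob b x)).2]
    have h10 : (1 - ⟪(w : E5), (mob b x : E5)⟫_ℝ) * (1 / 4) ≤
        (1 - ⟪(w : E5), (mob b x : E5)⟫_ℝ) * (1 + lam * ⟪(w : E5), (x : E5)⟫_ℝ) :=
      mul_le_mul_of_nonneg_left hN h9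
    have h11 : (1 - lam) * (1 - ⟪(w : E5), (x : E5)⟫_ℝ) ≤ (1 - lam) * 2 :=
      mul_le_mul_of_nonneg_left (by linarith [(inner_bd w x).1]) (by linarith)
    have h12 : 1 - lam ≤ 1 - lam ^ 2 := by nlinarith
    linarith
  have h14 : 1 - ⟪(mob b x : E5), (z : E5)⟫_ℝ ≤ v := by
    rw [real_inner_comm]
    exact hmem x hx
  have h13 := tri23 w (mob b x) z h8 h14
  linarith

end Pool.Agent.PQP.H64
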